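import Pool.Agent.X112.CE.Defs
import Pool.Agent.X112.CE.Erg
import Pool.Agent.X112.CE.Hyp
import Pool.Agent.X112.CE.Nuc3

set_option autoImplicit false

namespace Pool.Agent.Results.MP_b30f08_an.NuclearErgodicShift

open X112.CE
open scoped ENNReal

/-- On a nuclear coechelon space `k_p(V)` (`1 ≤ p < ∞`, or `k_0(V)`, which is the case `p = ∞`
here) with continuous backward shift `B`, topological ergodicity of `B` implies that `B` is
sequentially hypercyclic. -/
theorem result (𝕂 : Type) [RCLike 𝕂] (p : ℝ≥0∞) [Fact (1 ≤ p)] (V : Weights)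
    (hN : NuclearK 𝕂 p V) (hE : TopErgodic 𝕂 p V) : SeqHypercyclic 𝕂 p V := by
  obtain ⟨m, hm⟩ := ergodic_thick (nuclear_ratio hN) hE
  exact seqHyp m hm

end Pool.Agent.Results.MP_b30f08_an.NuclearErgodicShift
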